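import Pool.Agent.W203.WS.Stm

/-! WS-SQ: the mean square of `S` over the shift. -/

set_option autoImplicit false

open MeasureTheory Finset

namespace Pool.Agent.W95.WS
open Pool.Agent.W203.WS

lemma e_add (x y : ℝ) : e (x + y) = e x * e y := by
  unfold e
  rw [← Complex.exp_add]
  congr 1
  push_cast
  ring

lemma e_neg (x : ℝ) : e (-x) = (starRingEnd ℂ) (e x) := by
  unfold e
  rw [← Complex.exp_conj]
  congr 1
  have h2 : (starRingEnd ℂ) (2 : ℂ) = 2 := map_ofNat _ 2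
  simp [h2]

lemma e_zero : e 0 = 1 := by simp [e]

lemma e_cont : Continuous e := by
  unfold e
  fun_prop

lemma e_neg_re (x : ℝ) : (e (-x)).re = (e x).re := by
  rw [e_neg, Complex.conj_re]

/-- the correlations -/
noncomputable def cc (k : ℕ) (t : ℝ) (x y : ℕ) : ℝ :=
  ∫ θ in (0 : ℝ)..1, (e (t * (((x : ℝ) + θ) ^ k - ((y : ℝ) + θ) ^ k))).re

lemma cc_symm (k : ℕ) (t : ℝ) (x y : ℕ) : cc k t x y = cc k t y x := by
  unfold cc
  congr 1
  funext θ
  rw [← e_neg_re]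
  congr 2
  ring

lemma cc_self (k : ℕ) (t : ℝ) (x : ℕ) : cc k t x x = 1 := by
  unfold cc
  simp [e_zero]

lemma normsq (k P : ℕ) (t θ : ℝ) : ‖S k P t θ‖ ^ 2 =
    ∑ x ∈ Ico P (4 * P), ∑ y ∈ Ico P (4 * P),
      (e (t * (((x : ℝ) + θ) ^ k - ((y : ℝ) + θ) ^ k))).re := by
  have h1 : ((‖S k P t θ‖ ^ 2 : ℝ) : ℂ) = S k P t θ * (starRingEnd ℂ) (S k P t θ) := by
    rw [Complex.mul_conj, Complex.normSq_eq_norm_sq]
  have h2 : S k P t θ * (starRingEnd ℂ) (S k P t θ) =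
      ∑ x ∈ Ico P (4 * P), ∑ y ∈ Ico P (4 * P),
      e (t * (((x : ℝ) + θ) ^ k - ((y : ℝ) + θ) ^ k)) := by
    unfold S
    rw [map_sum, Finset.sum_mul_sum]
    refine Finset.sum_congr rfl fun x _ => Finset.sum_congr rfl fun y _ => ?_
    rw [← e_neg, ← e_add]
    congr 1
    ring
  have h3 := congrArg Complex.re (h1.trans h2)
  rw [Complex.ofReal_re] at h3
  rw [h3, Complex.re_sum]
  refine Finset.sum_congr rfl fun x _ => ?_
  rw [Complex.re_sum]

lemma int_normsq (k P : ℕ) (t : ℝ) : ∫ θ in (0 : ℝ)..1, ‖S k P t θ‖ ^ 2 =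
    ∑ x ∈ Ico P (4 * P), ∑ y ∈ Ico P (4 * P), cc k t x y := by
  have hc : ∀ x y : ℕ, Continuous fun θ : ℝ =>
      (e (t * (((x : ℝ) + θ) ^ k - ((y : ℝ) + θ) ^ k))).re := by
    intro x y
    refine Complex.continuous_re.comp (e_cont.comp ?_)
    fun_prop
  simp_rw [normsq]
  rw [intervalIntegral.integral_finsetSum]
  · refine Finset.sum_congr rfl fun x _ => ?_
    rw [intervalIntegral.integral_finsetSum]
    · rfl
    · intro y _
      exact (hc x y).intervalIntegrable _ _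
  · intro x _
    refine Continuous.intervalIntegrable ?_ _ _
    exact continuous_finsetSum _ fun y _ => hc x y

/-- grouping by the difference -/
lemma tri (c : ℕ → ℕ → ℝ) (hc : ∀ x y, c x y = c y x) (P Q : ℕ) (hPQ : P ≤ Q) :
    ∑ x ∈ Ico P Q, ∑ y ∈ Ico P Q, c x y = ∑ x ∈ Ico P Q, c x x +
      2 * ∑ h ∈ Ico 1 (Q - P), ∑ y ∈ Ico P (Q - h), c (y + h) y := by
  have h1 : ∑ h ∈ Ico 1 (Q - P), ∑ y ∈ Ico P (Q - h), c (y + h) y =
      ∑ y ∈ Ico P Q, ∑ x ∈ Ico (y + 1) Q, c x y := by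
    rw [Finset.sum_sigma', Finset.sum_sigma']
    refine Finset.sum_bij' (fun p _ => ⟨p.2, p.2 + p.1⟩) (fun p _ => ⟨p.2 - p.1, p.1⟩)
      ?_ ?_ ?_ ?_ ?_
    · rintro ⟨h, y⟩ hp
      simp only [Finset.mem_sigma, Finset.mem_Ico] at hp ⊢
      omega
    · rintro ⟨y, x⟩ hp
      simp only [Finset.mem_sigma, Finset.mem_Ico] at hp ⊢
      omega
    · rintro ⟨h, y⟩ hp
      simp only [Finset.mem_sigma, Finset.mem_Ico] at hp ⊢
      simp
    · rintro ⟨y, x⟩ hp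
      simp only [Finset.mem_sigma, Finset.mem_Ico] at hp ⊢
      have : y + (x - y) = x := by omega
      simp [this]
    · rintro ⟨h, y⟩ hp
      rfl
  have h2 : ∀ y ∈ Ico P Q, ∑ x ∈ Ico P Q, c y x =
      ∑ x ∈ Ico P y, c x y + c y y + ∑ x ∈ Ico (y + 1) Q, c x y := by
    intro y hy
    rw [Finset.mem_Ico] at hy
    rw [← Finset.sum_Ico_consecutive _ hy.1 hy.2.le, Finset.sum_eq_sum_Ico_succ_bot hy.2]
    have e1 : ∑ x ∈ Ico P y, c y x = ∑ x ∈ Ico P y, c x y :=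
      Finset.sum_congr rfl fun x _ => hc y x
    have e2 : ∑ x ∈ Ico (y + 1) Q, c y x = ∑ x ∈ Ico (y + 1) Q, c x y :=
      Finset.sum_congr rfl fun x _ => hc y x
    rw [e1, e2]
    ring
  have h3 : ∑ y ∈ Ico P Q, ∑ x ∈ Ico P y, c x y = ∑ y ∈ Ico P Q, ∑ x ∈ Ico (y + 1) Q, c x y := by
    rw [← Finset.sum_Ico_Ico_comm' P Q (fun x y => c x y)]
    refine Finset.sum_congr rfl fun x _ => Finset.sum_congr rfl fun y _ => hc x y
  rw [Finset.sum_congr rfl h2, Finset.sum_add_distrib, Finset.sum_add_distrib, h3, h1]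
  ring

lemma block (h : S_FDT) (n P : ℕ) (t : ℝ) (hP : 1 ≤ P) (ht : 0 < t) (m : ℕ) (hm : 1 ≤ m)
    (hm' : m < 3 * P) :
    ∑ y ∈ Ico P (4 * P - m), cc (n + 2) t (y + m) y ≤ 1 / (2 * t * m * (P : ℝ) ^ n) := by
  have hP0 : (0 : ℝ) < P := by exact_mod_cast hP
  have hm0 : (0 : ℝ) < m := by exact_mod_cast hm
  obtain ⟨φ, hφ⟩ : ∃ φ : ℝ → ℝ, φ = fun u => t * ((u + m) ^ (n + 2) - u ^ (n + 2)) := ⟨_, rfl⟩
  have hφc : Continuous φ := by rw [hφ]; fun_prop
  have hi : ∀ y : ℕ, ∫ θ in (0 : ℝ)..1,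
      e (t * ((((y + m : ℕ) : ℝ) + θ) ^ (n + 2) - ((y : ℝ) + θ) ^ (n + 2))) =
      ∫ u in (y : ℝ)..((y + 1 : ℕ) : ℝ), e (φ u) := by
    intro y
    have h1 := intervalIntegral.integral_comp_add_left (a := (0:ℝ)) (b := 1)
      (fun u => e (φ u)) (y : ℝ)
    rw [add_zero] at h1
    push_cast
    rw [← h1]
    congr 1
    funext θ
    rw [hφ]
    congr 2
    ring
  have hcc : ∀ y : ℕ, cc (n + 2) t (y + m) y =
      (∫ u in (y : ℝ)..((y + 1 : ℕ) : ℝ), e (φ u)).re := by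
    intro y
    rw [← hi y]
    unfold cc
    have hcont : Continuous fun θ : ℝ =>
        e (t * ((((y + m : ℕ) : ℝ) + θ) ^ (n + 2) - ((y : ℝ) + θ) ^ (n + 2))) := by
      refine e_cont.comp ?_
      fun_prop
    have := Complex.reCLM.intervalIntegral_comp_comm
      (hcont.intervalIntegrable (μ := volume) 0 1)
    simpa using this
  have hsum : ∑ y ∈ Ico P (4 * P - m), cc (n + 2) t (y + m) y =
      (∫ u in (P : ℝ)..((4 * P - m : ℕ) : ℝ), e (φ u)).re := by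
    rw [Finset.sum_congr rfl fun y _ => hcc y, ← Complex.re_sum]
    congr 1
    exact intervalIntegral.sum_integral_adjacent_intervals_Ico (a := fun j : ℕ => (j : ℝ))
      (by omega) fun j _ => (e_cont.comp hφc).intervalIntegrable _ _
  rw [hsum]
  refine (Complex.re_le_norm _).trans ?_
  refine h φ (fun u => t * (((n + 2 : ℕ) : ℝ) * (u + m) ^ (n + 1) -
      ((n + 2 : ℕ) : ℝ) * u ^ (n + 1)))
    (fun u => t * (((n + 2 : ℕ) : ℝ) * (((n + 1 : ℕ) : ℝ) * (u + m) ^ n) -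
      ((n + 2 : ℕ) : ℝ) * (((n + 1 : ℕ) : ℝ) * u ^ n)))
    (P : ℝ) ((4 * P - m : ℕ) : ℝ) (2 * t * m * (P : ℝ) ^ n) ?_ (by positivity) ?_ ?_ ?_ ?_ ?_
  · exact_mod_cast (by omega : P ≤ 4 * P - m)
  · intro x _
    rw [hφ]
    have h1 := ((hasDerivAt_id x).add_const (m : ℝ)).pow (n + 2)
    have h2 := (hasDerivAt_id x).pow (n + 2)
    have h3 := (h1.sub h2).const_mul t
    simpa using h3
  · intro x _
    have h1 := (((hasDerivAt_id x).add_const (m : ℝ)).pow (n + 1)).const_mul ((n + 2 : ℕ) : ℝ)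
    have h2 := ((hasDerivAt_id x).pow (n + 1)).const_mul ((n + 2 : ℕ) : ℝ)
    have h3 := (h1.sub h2).const_mul t
    simpa using h3
  · fun_prop
  · intro x hx
    have hx0 : 0 ≤ x := hP0.le.trans hx.1
    have h1 : x ^ n ≤ (x + m) ^ n := pow_le_pow_left₀ hx0 (by linarith) n
    have h2 : (P : ℝ) ^ n ≤ x ^ n := pow_le_pow_left₀ hP0.le hx.1 n
    have h3 : x ^ (n + 1) + m * (P : ℝ) ^ n ≤ (x + m) ^ (n + 1) := by
      rw [pow_succ, pow_succ]
      nlinarith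
    have h4 : (2 : ℝ) ≤ ((n + 2 : ℕ) : ℝ) := by push_cast; linarith [(Nat.cast_nonneg n : (0:ℝ) ≤ n)]
    have h5 : 0 < (m : ℝ) * (P : ℝ) ^ n := by positivity
    have h6 : 2 * ((m : ℝ) * (P : ℝ) ^ n) ≤
        ((n + 2 : ℕ) : ℝ) * ((x + m) ^ (n + 1) - x ^ (n + 1)) :=
      mul_le_mul h4 (by linarith) h5.le (by linarith)
    calc 2 * t * m * (P : ℝ) ^ n = t * (2 * ((m : ℝ) * (P : ℝ) ^ n)) := by ring
      _ ≤ t * (((n + 2 : ℕ) : ℝ) * ((x + m) ^ (n + 1) - x ^ (n + 1))) :=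
          mul_le_mul_of_nonneg_left h6 ht.le
      _ = _ := by ring
  · intro x hx
    have hx0 : 0 ≤ x := hP0.le.trans hx.1
    have h1 : x ^ n ≤ (x + m) ^ n := pow_le_pow_left₀ hx0 (by linarith) n
    have h2 : 0 ≤ t * (((n + 2 : ℕ) : ℝ) * (((n + 1 : ℕ) : ℝ) * ((x + m) ^ n - x ^ n))) := by
      have : 0 ≤ (x + m) ^ n - x ^ n := by linarith
      positivity
    calc 0 ≤ t * (((n + 2 : ℕ) : ℝ) * (((n + 1 : ℕ) : ℝ) * ((x + m) ^ n - x ^ n))) := h2
      _ = _ := by ring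

lemma harm (N : ℕ) : ∑ m ∈ Ico 1 N, 1 / (m : ℝ) ≤ 1 + Real.log N := by
  refine le_trans ?_ (harmonic_le_one_add_log N)
  rw [harmonic_eq_sum_Icc]
  push_cast
  refine le_trans ?_ (Finset.sum_le_sum_of_subset_of_nonneg (s := Ico 1 N) ?_ ?_)
  · refine Finset.sum_le_sum fun i _ => ?_
    rw [one_div]
  · intro i hi
    rw [Finset.mem_Ico] at hi
    rw [Finset.mem_Icc]
    omega
  · intro i _ _
    positivity

lemma pos_case (h : S_FDT) (n P : ℕ) (t : ℝ) (hP : 1 ≤ P) (ht : 0 < t) :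
    ∫ θ in (0 : ℝ)..1, ‖S (n + 2) P t θ‖ ^ 2 ≤
      3 * P + (1 + Real.log (3 * P)) / (t * (P : ℝ) ^ n) := by
  have hP0 : (0 : ℝ) < P := by exact_mod_cast hP
  rw [int_normsq, tri (cc (n + 2) t) (cc_symm _ _) P (4 * P) (by omega)]
  refine add_le_add ?_ ?_
  · rw [Finset.sum_congr rfl fun x _ => cc_self (n + 2) t x]
    simp only [Finset.sum_const, Nat.card_Ico, nsmul_eq_mul, mul_one]
    have : 4 * P - P = 3 * P := by omega
    rw [this]
    push_cast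
    exact le_refl _
  · have h3 : 4 * P - P = 3 * P := by omega
    rw [h3]
    have h4 : ∑ m ∈ Ico 1 (3 * P), ∑ y ∈ Ico P (4 * P - m), cc (n + 2) t (y + m) y ≤
        ∑ m ∈ Ico 1 (3 * P), 1 / (2 * t * (P : ℝ) ^ n) * (1 / (m : ℝ)) := by
      refine Finset.sum_le_sum fun m hm => ?_
      rw [Finset.mem_Ico] at hm
      refine (block h n P t hP ht m hm.1 hm.2).trans (le_of_eq ?_)
      have hm0 : (0 : ℝ) < m := by exact_mod_cast hm.1
      field_simp
    rw [← Finset.mul_sum] at h4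
    have h5 := harm (3 * P)
    push_cast at h5
    have h6 : 0 < 1 / (2 * t * (P : ℝ) ^ n) := by positivity
    calc _ ≤ 2 * (1 / (2 * t * (P : ℝ) ^ n) * (1 + Real.log (3 * P))) := by
          have := mul_le_mul_of_nonneg_left h5 h6.le
          linarith
      _ = _ := by field_simp

theorem t_SQ (h : S_FDT) : S_SQ := by
  intro k P t hk hP ht
  obtain ⟨n, rfl⟩ : ∃ n, k = n + 2 := ⟨k - 2, by omega⟩
  have hn : n + 2 - 2 = n := by omega
  rw [hn]
  rcases lt_or_gt_of_ne ht with h1 | h1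
  · have h2 := pos_case h n P (-t) hP (by linarith)
    have h3 : ∀ θ, ‖S (n + 2) P (-t) θ‖ = ‖S (n + 2) P t θ‖ := by
      intro θ
      have : S (n + 2) P (-t) θ = (starRingEnd ℂ) (S (n + 2) P t θ) := by
        unfold S
        rw [map_sum]
        refine Finset.sum_congr rfl fun x _ => ?_
        rw [← e_neg]
        congr 1
        ring
      rw [this, Complex.norm_conj]
    simp_rw [h3] at h2
    rw [abs_of_neg h1]
    exact h2
  · rw [abs_of_pos h1]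
    exact pos_case h n P t hP h1

end Pool.Agent.W95.WS
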